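import Mathlib

set_option autoImplicit false

namespace Pool.Agent.Lib.MP_5a22fd_pr

open Finset

/-- The step size and probability `1 / (k + 2)`. -/
noncomputable def q (k : ℕ) : ℝ := 1 / ((k : ℝ) + 2)

/-- The weight `1 / ((k + 1) (k + 2))`. -/
noncomputable def w (k : ℕ) : ℝ := 1 / (((k : ℝ) + 1) * ((k : ℝ) + 2))

/-- Expectation of `h` at the sum of `I n / n` over `2 ≤ n ≤ k + 1`. -/
noncomputable def ev : ℕ → (ℝ → ℝ) → ℝ
  | 0, h => h 0
  | k + 1, h => (1 - q k) * ev k h + q k * ev k (fun x => h (x + q k))

lemma q_pos (k : ℕ) : 0 < q k := by unfold q; positivity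

lemma q_le_half (k : ℕ) : q k ≤ 1 / 2 := by
  unfold q
  apply one_div_le_one_div_of_le (by norm_num)
  have : (0 : ℝ) ≤ k := Nat.cast_nonneg k
  linarith

lemma one_sub_q_pos (k : ℕ) : 0 < 1 - q k := by have := q_le_half k; linarith

lemma w_pos (k : ℕ) : 0 < w k := by unfold w; positivity

lemma w_mul (k : ℕ) : w k * (1 - q k) = q k * q k := by
  unfold w q
  have : (0 : ℝ) ≤ k := Nat.cast_nonneg k
  field_simp
  ring

lemma w_eq (k : ℕ) : w k = 1 / ((k : ℝ) + 1) - 1 / ((k : ℝ) + 2) := by
  unfold w
  have : (0 : ℝ) ≤ k := Nat.cast_nonneg k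
  field_simp
  ring

lemma ev_mono (k : ℕ) : ∀ {g h : ℝ → ℝ}, (∀ x, 0 ≤ x → g x ≤ h x) → ev k g ≤ ev k h := by
  induction k with
  | zero => intro g h H; exact H 0 le_rfl
  | succ k ih =>
    intro g h H
    simp only [ev]
    have h1 := ih H
    have h2 : ev k (fun x => g (x + q k)) ≤ ev k (fun x => h (x + q k)) :=
      ih (fun x hx => H _ (by have := q_pos k; linarith))
    have := q_pos k
    have := one_sub_q_pos k
    nlinarith

lemma ev_const (k : ℕ) (c : ℝ) : ev k (fun _ => c) = c := by
  induction k with
  | zero => rfl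
  | succ k ih => simp only [ev, ih]; ring

lemma ev_nonneg (k : ℕ) {h : ℝ → ℝ} (H : ∀ x, 0 ≤ x → 0 ≤ h x) : 0 ≤ ev k h := by
  have := ev_mono k (g := fun _ => 0) (h := h) H
  rwa [ev_const] at this

lemma ev_add (k : ℕ) : ∀ (g h : ℝ → ℝ), ev k (fun x => g x + h x) = ev k g + ev k h := by
  induction k with
  | zero => intro g h; rfl
  | succ k ih =>
    intro g h
    simp only [ev]
    rw [ih g h, ih (fun x => g (x + q k)) (fun x => h (x + q k))]
    ring

lemma ev_smul (k : ℕ) (c : ℝ) : ∀ (h : ℝ → ℝ), ev k (fun x => c * h x) = c * ev k h := by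
  induction k with
  | zero => intro h; rfl
  | succ k ih =>
    intro h
    simp only [ev]
    rw [ih h, ih (fun x => h (x + q k))]
    ring

/-- The size-bias inequality. -/
lemma ev_size_bias (k : ℕ) : ∀ (h : ℝ → ℝ), (∀ x, 0 ≤ h x) →
    ev k (fun x => x * h x) ≤ ∑ j ∈ range k, w j * ev k (fun x => h (x + q j)) := by
  induction k with
  | zero => intro h _; simp [ev]
  | succ k ih =>
    intro h H
    have h1 := ih h H
    have h2 := ih (fun x => h (x + q k)) (fun x => H _)
    have hq := q_pos k
    have hq' := one_sub_q_pos k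
    have e1 : ev (k + 1) (fun x => x * h x)
        = (1 - q k) * ev k (fun x => x * h x)
          + q k * (ev k (fun x => x * h (x + q k)) + q k * ev k (fun x => h (x + q k))) := by
      simp only [ev]
      have : (fun x => (x + q k) * h (x + q k))
          = (fun x => x * h (x + q k) + q k * h (x + q k)) := by
        ext x; ring
      rw [this, ev_add, ev_smul]
    have e2 : ∑ j ∈ range k, w j * ev (k + 1) (fun x => h (x + q j))
        = (1 - q k) * ∑ j ∈ range k, w j * ev k (fun x => h (x + q j))
          + q k * ∑ j ∈ range k, w j * ev k (fun x => h (x + q j + q k)) := by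
      rw [mul_sum, mul_sum, ← sum_add_distrib]
      refine sum_congr rfl (fun j _ => ?_)
      simp only [ev]
      have : (fun x => h (x + q k + q j)) = (fun x => h (x + q j + q k)) := by
        ext x; congr 1; ring
      rw [this]
      ring
    have e3 : q k * (q k * ev k (fun x => h (x + q k)))
        ≤ w k * ev (k + 1) (fun x => h (x + q k)) := by
      simp only [ev]
      have a1 : 0 ≤ ev k (fun x => h (x + q k + q k)) := ev_nonneg k (fun x _ => H _)
      have a2 := w_mul k
      have a3 := w_pos k
      have a4 : 0 ≤ w k * (q k * ev k (fun x => h (x + q k + q k))) := by positivity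
      calc q k * (q k * ev k (fun x => h (x + q k)))
          = w k * ((1 - q k) * ev k (fun x => h (x + q k))) := by
            rw [← mul_assoc, ← mul_assoc, a2]
        _ ≤ _ := by rw [mul_add]; linarith
    rw [sum_range_succ, e1, e2]
    have b1 := mul_le_mul_of_nonneg_left h1 hq'.le
    have b2 := mul_le_mul_of_nonneg_left h2 hq.le
    rw [mul_add]
    linarith

/-- Indicator of `x < y`. -/
noncomputable def below (y x : ℝ) : ℝ := if x < y then 1 else 0

lemma ev_below_succ_le (k : ℕ) (y : ℝ) : ev (k + 1) (below y) ≤ ev k (below y) := by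
  simp only [ev]
  have : ev k (fun x => below y (x + q k)) ≤ ev k (below y) := by
    apply ev_mono
    intro x _
    have := q_pos k
    unfold below
    split_ifs with h1 h2
    · exact le_rfl
    · exact absurd (by linarith) h2
    · norm_num
    · exact le_rfl
  have hq := q_pos k
  nlinarith

lemma ev_below_small (k : ℕ) : ∀ y : ℝ, y ≤ 1 / ((k : ℝ) + 1) →
    ev k (below y) ≤ 1 / ((k : ℝ) + 1) := by
  induction k with
  | zero =>
    intro y _
    simp only [ev, below]
    split_ifs <;> norm_num
  | succ k ih =>
    intro y hy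
    have hk : (0 : ℝ) ≤ k := Nat.cast_nonneg k
    have hy' : y ≤ q k := by
      unfold q
      have : ((k + 1 : ℕ) : ℝ) + 1 = (k : ℝ) + 2 := by push_cast; ring
      rwa [this] at hy
    have h1 : q k ≤ 1 / ((k : ℝ) + 1) := by
      unfold q
      apply one_div_le_one_div_of_le (by positivity)
      linarith
    have h2 := ih y (hy'.trans h1)
    have h3 : ev k (fun x => below y (x + q k)) ≤ 0 := by
      have := ev_mono k (g := fun x => below y (x + q k)) (h := fun _ => 0) (by
        intro x hx
        unfold below
        rw [if_neg (by linarith)])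
      rwa [ev_const] at this
    simp only [ev]
    have hq := q_pos k
    have hq' := one_sub_q_pos k
    have h4 : (1 - q k) * (1 / ((k : ℝ) + 1)) = 1 / (((k + 1 : ℕ) : ℝ) + 1) := by
      unfold q
      push_cast
      field_simp
      ring
    have h5 := mul_le_mul_of_nonneg_left h2 hq'.le
    nlinarith

lemma ev_below_le (k : ℕ) (y : ℝ) : ev k (below y) ≤ max (2 * y) (1 / ((k : ℝ) + 1)) := by
  induction k with
  | zero =>
    apply le_trans _ (le_max_right _ _)
    simp only [ev, below]
    split_ifs <;> norm_num
  | succ k ih =>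
    rcases le_or_gt y (1 / (((k + 1 : ℕ) : ℝ) + 1)) with h | h
    · exact (ev_below_small (k + 1) y h).trans (le_max_right _ _)
    · refine (ev_below_succ_le k y).trans (ih.trans ?_)
      refine max_le (le_max_left _ _) (le_trans ?_ (le_max_left _ _))
      have hk : (0 : ℝ) ≤ k := Nat.cast_nonneg k
      have : 1 / ((k : ℝ) + 1) ≤ 2 * (1 / (((k + 1 : ℕ) : ℝ) + 1)) := by
        push_cast
        rw [mul_one_div, div_le_div_iff₀ (by positivity) (by positivity)]
        linarith
      linarith

lemma sum_w_le_one (k : ℕ) : ∑ j ∈ range k, w j ≤ 1 := by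
  have : ∑ j ∈ range k, w j = 1 - 1 / ((k : ℝ) + 1) := by
    induction k with
    | zero => simp
    | succ k ih =>
      rw [sum_range_succ, ih, w_eq]
      push_cast
      ring
  rw [this]
  have : 0 ≤ 1 / ((k : ℝ) + 1) := by positivity
  linarith

lemma sum_w_below (s : ℝ) (hs : 0 < s) (hs1 : s < 1) (k : ℕ) :
    ∑ j ∈ range k, w j * below s (q j) ≤ s / (1 - s) := by
  have key : ∑ j ∈ range k, w j * below s (q j) ≤ max 0 (s / (1 - s) - 1 / ((k : ℝ) + 1)) := by
    induction k with
    | zero => simp
    | succ k ih =>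
      have hk : (0 : ℝ) ≤ k := Nat.cast_nonneg k
      rw [sum_range_succ]
      have e : ((k + 1 : ℕ) : ℝ) + 1 = (k : ℝ) + 2 := by push_cast; ring
      rw [e]
      unfold below at *
      split_ifs with h
      · have h1 : 1 / ((k : ℝ) + 1) ≤ s / (1 - s) := by
          unfold q at h
          rw [div_lt_iff₀ (by positivity)] at h
          rw [div_le_div_iff₀ (by positivity) (by linarith)]
          nlinarith
        rw [max_eq_right (by linarith)] at ih
        refine le_trans ?_ (le_max_right _ _)
        rw [w_eq]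
        linarith
      · rw [mul_zero, add_zero]
        refine ih.trans (max_le_max le_rfl ?_)
        have : 1 / ((k : ℝ) + 2) ≤ 1 / ((k : ℝ) + 1) :=
          one_div_le_one_div_of_le (by positivity) (by linarith)
        linarith
  refine key.trans (max_le ?_ ?_)
  · exact div_nonneg hs.le (by linarith)
  · have : 0 ≤ 1 / ((k : ℝ) + 1) := by positivity
    linarith

end Pool.Agent.Lib.MP_5a22fd_pr
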