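import Mathlib
import Pool.Agent.Lib.MP_5a22fd_pr.Ev

set_option autoImplicit false

namespace Pool.Agent.Lib.MP_5a22fd_pr

open Finset

/-- Indicator of the open window `(y - d, y)`. -/
noncomputable def win (d y x : ℝ) : ℝ := if y - d < x ∧ x < y then 1 else 0

/-- The comparison function. -/
noncomputable def phi (d y : ℝ) : ℝ := Real.exp (100 * min y 2) * (2 - 4 * d / max y (4 * d))

lemma win_nonneg (d y x : ℝ) : 0 ≤ win d y x := by unfold win; split_ifs <;> norm_num

lemma ev_win_nonpos (k : ℕ) (d y : ℝ) (hy : y ≤ 0) : ev k (win d y) ≤ 0 := by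
  have := ev_mono k (g := win d y) (h := fun _ => 0) (by
    intro x hx
    unfold win
    rw [if_neg (by rintro ⟨_, h⟩; linarith)])
  rwa [ev_const] at this

lemma ev_win_le_below (k : ℕ) (d y : ℝ) : ev k (win d y) ≤ ev k (below y) := by
  apply ev_mono
  intro x _
  unfold win below
  split_ifs with h1 h2
  · exact le_rfl
  · exact absurd h1.2 h2
  · norm_num
  · exact le_rfl

lemma ev_win_rec (k : ℕ) (d y : ℝ) :
    (y - d) * ev k (win d y) ≤ ∑ j ∈ range k, w j * ev k (win d (y - q j)) := by
  have h1 := ev_size_bias k (win d y) (win_nonneg d y)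
  have h2 : ∀ j, (fun x => win d y (x + q j)) = win d (y - q j) := by
    intro j
    ext x
    unfold win
    congr 1
    apply propext
    constructor <;> rintro ⟨a, b⟩ <;> constructor <;> linarith
  simp only [h2] at h1
  refine le_trans ?_ h1
  rw [← ev_smul]
  apply ev_mono
  intro x _
  unfold win
  split_ifs with h
  · linarith [h.1]
  · simp

lemma hfac_bounds (d y : ℝ) (hd : 0 < d) :
    1 ≤ 2 - 4 * d / max y (4 * d) ∧ 2 - 4 * d / max y (4 * d) ≤ 2 := by
  have h1 : 4 * d ≤ max y (4 * d) := le_max_right _ _
  have h2 : 0 < max y (4 * d) := by linarith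
  constructor
  · have : 4 * d / max y (4 * d) ≤ 1 := (div_le_one h2).2 h1
    linarith
  · have : 0 ≤ 4 * d / max y (4 * d) := by positivity
    linarith

lemma hfac_mono (d : ℝ) (hd : 0 < d) {u y : ℝ} (h : u ≤ y) :
    2 - 4 * d / max u (4 * d) ≤ 2 - 4 * d / max y (4 * d) := by
  have h1 : 4 * d ≤ max u (4 * d) := le_max_right _ _
  have h2 : max u (4 * d) ≤ max y (4 * d) := max_le_max h le_rfl
  have : 4 * d / max y (4 * d) ≤ 4 * d / max u (4 * d) :=
    div_le_div_of_nonneg_left (by linarith) (by linarith) h2
  linarith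

lemma phi_nonneg (d y : ℝ) (hd : 0 < d) : 0 ≤ phi d y := by
  unfold phi
  have := (hfac_bounds d y hd).1
  have := Real.exp_pos (100 * min y 2)
  positivity

lemma phi_mono (d : ℝ) (hd : 0 < d) {u y : ℝ} (h : u ≤ y) : phi d u ≤ phi d y := by
  unfold phi
  have h1 := (hfac_bounds d u hd).1
  have h2 := hfac_mono d hd h
  have h3 : Real.exp (100 * min u 2) ≤ Real.exp (100 * min y 2) :=
    Real.exp_le_exp.2 (by have := min_le_min h (le_refl (2 : ℝ)); linarith)
  exact mul_le_mul h3 h2 (by linarith) (Real.exp_pos _).le

lemma one_le_phi (d y : ℝ) (hd : 0 < d) (hy : 0 ≤ y) : 1 ≤ phi d y := by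
  unfold phi
  have h1 := (hfac_bounds d y hd).1
  have h2 : 1 ≤ Real.exp (100 * min y 2) :=
    Real.one_le_exp (by have : 0 ≤ min y 2 := le_min hy (by norm_num); linarith)
  nlinarith

lemma phi_le (d y : ℝ) (hd : 0 < d) : phi d y ≤ 2 * Real.exp 200 := by
  unfold phi
  have h1 := (hfac_bounds d y hd)
  have h2 : Real.exp (100 * min y 2) ≤ Real.exp 200 :=
    Real.exp_le_exp.2 (by have := min_le_right y 2; linarith)
  rw [mul_comm]
  exact mul_le_mul h1.2 h2 (Real.exp_pos _).le (by norm_num)

/-- Regime of small `y`. -/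
lemma regime_one (d y : ℝ) (hd : 0 < d) (h1 : 8 * d ≤ y) (h2 : y ≤ 1 / 4) :
    phi d (y - y / 2) * (y / (1 - y))
      + (phi d y - phi d (y - y / 2)) * ((y / 2) / (1 - y / 2)) ≤ (y - d) * phi d y := by
  have hy : 0 < y := by linarith
  have e0 : y - y / 2 = y / 2 := by ring
  rw [e0]
  set b := phi d y with hb
  set a := phi d (y / 2) with ha
  have hb0 : 0 ≤ b := phi_nonneg d y hd
  set t := d / y with ht
  have ht0 : 0 < t := by positivity
  have ht1 : t ≤ 1 / 8 := by rw [ht, div_le_iff₀ hy]; linarith
  have hdt : d = t * y := by rw [ht]; field_simp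
  have key : a ≤ (1 - 2 * y - 2 * t) * b := by
    have ea : a = Real.exp (50 * y) * (2 - 8 * t) := by
      rw [ha, phi, min_eq_left (by linarith), max_eq_left (by linarith)]
      congr 1
      · congr 1; ring
      · rw [hdt]; field_simp; ring
    have eb : b = Real.exp (50 * y) * Real.exp (50 * y) * (2 - 4 * t) := by
      rw [hb, phi, min_eq_left (by linarith), max_eq_left (by linarith), ← Real.exp_add]
      congr 1
      · congr 1; ring
      · rw [hdt]; field_simp
    have hE : 1 + 50 * y ≤ Real.exp (50 * y) := by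
      have := Real.add_one_le_exp (50 * y); linarith
    have hE0 := Real.exp_pos (50 * y)
    rw [ea, eb]
    have c1 : 1 - 2 * t ≤ (1 - 2 * y - 2 * t) * Real.exp (50 * y) := by
      have c0 : (1 - 2 * y - 2 * t) * (1 + 50 * y) ≤ (1 - 2 * y - 2 * t) * Real.exp (50 * y) :=
        mul_le_mul_of_nonneg_left hE (by linarith)
      nlinarith
    have c2 : 2 - 8 * t ≤ (1 - 2 * t) * (2 - 4 * t) := by nlinarith
    have c3 : (1 - 2 * t) * (2 - 4 * t)
        ≤ ((1 - 2 * y - 2 * t) * Real.exp (50 * y)) * (2 - 4 * t) :=
      mul_le_mul_of_nonneg_right c1 (by linarith)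
    calc Real.exp (50 * y) * (2 - 8 * t)
        ≤ Real.exp (50 * y) * (((1 - 2 * y - 2 * t) * Real.exp (50 * y)) * (2 - 4 * t)) :=
          mul_le_mul_of_nonneg_left (c2.trans c3) hE0.le
      _ = _ := by ring
  have p1 : 0 < 1 - y := by linarith
  have p2 : 0 < 2 - y := by linarith
  have e1 : (y / 2) / (1 - y / 2) = y / (2 - y) := by
    have : (1 - y / 2) ≠ 0 := by linarith
    field_simp
  rw [e1]
  have e2 : a * (y / (1 - y)) + (b - a) * (y / (2 - y))
      = y * (a + (1 - y) * b) / ((1 - y) * (2 - y)) := by
    field_simp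
    ring
  rw [e2, div_le_iff₀ (by positivity), hdt]
  have c4 : a + (1 - y) * b ≤ (2 - 3 * y - 2 * t) * b := by linarith
  have c5 : 2 - 3 * y - 2 * t ≤ (1 - t) * ((1 - y) * (2 - y)) := by nlinarith
  have c6 : (2 - 3 * y - 2 * t) * b ≤ (1 - t) * ((1 - y) * (2 - y)) * b :=
    mul_le_mul_of_nonneg_right c5 hb0
  calc y * (a + (1 - y) * b) ≤ y * ((1 - t) * ((1 - y) * (2 - y)) * b) :=
        mul_le_mul_of_nonneg_left (c4.trans c6) hy.le
    _ = _ := by ring

/-- Regime of medium `y`. -/
lemma regime_two (d y : ℝ) (hd : 0 < d) (h1 : 8 * d ≤ y) (h2 : 1 / 4 ≤ y) (h3 : y ≤ 2) :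
    phi d (y - 1 / 8) * 1
      + (phi d y - phi d (y - 1 / 8)) * ((1 / 8) / (1 - 1 / 8)) ≤ (y - d) * phi d y := by
  set b := phi d y with hb
  set a := phi d (y - 1 / 8) with ha
  have hb0 : 0 ≤ b := phi_nonneg d y hd
  have ha0 : 0 ≤ a := phi_nonneg d _ hd
  have key : (27 / 2) * a ≤ b := by
    rw [ha, hb, phi, phi, min_eq_left h3, min_eq_left (by linarith)]
    have e : Real.exp (100 * y) = Real.exp (25 / 2) * Real.exp (100 * (y - 1 / 8)) := by
      rw [← Real.exp_add]; congr 1; ring
    have hE : 27 / 2 ≤ Real.exp (25 / 2) := by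
      have := Real.add_one_le_exp (25 / 2); linarith
    have m := hfac_mono d hd (show y - 1 / 8 ≤ y by linarith)
    have m1 := (hfac_bounds d (y - 1 / 8) hd).1
    have hE0 := Real.exp_pos (100 * (y - 1 / 8))
    rw [e, mul_assoc]
    exact mul_le_mul hE (mul_le_mul_of_nonneg_left m hE0.le) (by positivity) (by positivity)
  have c : 7 / 32 * b ≤ (y - d) * b := mul_le_mul_of_nonneg_right (by linarith) hb0
  norm_num
  linarith

lemma main_bound (k : ℕ) (d : ℝ) (hd : 0 < d) (hk : 1 / ((k : ℝ) + 1) ≤ d) (y : ℝ) :
    ev k (win d y) ≤ 16 * d * phi d y := by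
  have hk0 : (0 : ℝ) ≤ k := Nat.cast_nonneg k
  have heta : 0 < 1 / ((k : ℝ) + 1) := by positivity
  have base : ∀ y, y ≤ 8 * d → ev k (win d y) ≤ 16 * d * phi d y := by
    intro y hy
    rcases le_or_gt y 0 with h | h
    · have := phi_nonneg d y hd
      exact (ev_win_nonpos k d y h).trans (by positivity)
    · have h1 := (ev_win_le_below k d y).trans (ev_below_le k y)
      have h2 : max (2 * y) (1 / ((k : ℝ) + 1)) ≤ 16 * d := max_le (by linarith) (by linarith)
      have h3 := one_le_phi d y hd h.le
      nlinarith
  have main : ∀ m : ℕ, ∀ y, y ≤ m * (1 / ((k : ℝ) + 1)) → ev k (win d y) ≤ 16 * d * phi d y := by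
    intro m
    induction m with
    | zero =>
      intro y hy
      apply base
      simp at hy
      linarith
    | succ m ih =>
      intro y hy
      rcases le_or_gt y (8 * d) with h | h
      · exact base y h
      have hyd : 0 < y - d := by linarith
      have prev : ∀ j ∈ range k, ev k (win d (y - q j)) ≤ 16 * d * phi d (y - q j) := by
        intro j hj
        apply ih
        have hj' : (j : ℝ) + 1 ≤ k := by exact_mod_cast mem_range.1 hj
        have : 1 / ((k : ℝ) + 1) ≤ q j := by
          unfold q
          apply one_div_le_one_div_of_le (by positivity)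
          linarith
        push_cast at hy
        linarith
      have two : ∀ s, s ≤ y → ∑ j ∈ range k, w j * ev k (win d (y - q j))
          ≤ 16 * d * (phi d (y - s) * ∑ j ∈ range k, w j * below y (q j)
            + (phi d y - phi d (y - s)) * ∑ j ∈ range k, w j * below s (q j)) := by
        intro s hs
        rw [mul_sum, mul_sum, ← sum_add_distrib, mul_sum]
        refine sum_le_sum (fun j hj => ?_)
        have hw := w_pos j
        have hq := q_pos j
        have e : 16 * d * (phi d (y - s) * (w j * below y (q j))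
            + (phi d y - phi d (y - s)) * (w j * below s (q j)))
            = w j * (16 * d * (phi d (y - s) * below y (q j)
              + (phi d y - phi d (y - s)) * below s (q j))) := by ring
        rw [e]
        refine mul_le_mul_of_nonneg_left ?_ hw.le
        unfold below
        split_ifs with h1 h2 h2
        · refine (prev j hj).trans (mul_le_mul_of_nonneg_left ?_ (by positivity))
          have := phi_mono d hd (show y - q j ≤ y by linarith)
          linarith
        · refine (prev j hj).trans (mul_le_mul_of_nonneg_left ?_ (by positivity))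
          have := phi_mono d hd (show y - q j ≤ y - s by linarith)
          linarith
        · exact absurd (by linarith) h1
        · have := ev_win_nonpos k d (y - q j) (by linarith)
          linarith
      have fin : ∑ j ∈ range k, w j * ev k (win d (y - q j)) ≤ 16 * d * ((y - d) * phi d y) := by
        have T1 : ∑ j ∈ range k, w j * below y (q j) ≤ 1 := by
          refine le_trans (sum_le_sum (fun j _ => ?_)) (sum_w_le_one k)
          have := w_pos j
          unfold below
          split_ifs <;> linarith
        rcases le_or_gt y (1 / 4) with h4 | h4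
        · refine (two (y / 2) (by linarith)).trans
            (mul_le_mul_of_nonneg_left (le_trans ?_ (regime_one d y hd h.le h4)) (by positivity))
          have a0 := phi_nonneg d (y - y / 2) hd
          have a1 := phi_mono d hd (show y - y / 2 ≤ y by linarith)
          have s1 := sum_w_below y (by linarith) (by linarith) k
          have s2 := sum_w_below (y / 2) (by linarith) (by linarith) k
          exact add_le_add (mul_le_mul_of_nonneg_left s1 a0)
            (mul_le_mul_of_nonneg_left s2 (by linarith))
        rcases le_or_gt y 2 with h5 | h5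
        · refine (two (1 / 8) (by linarith)).trans
            (mul_le_mul_of_nonneg_left (le_trans ?_ (regime_two d y hd h.le h4.le h5))
              (by positivity))
          have a0 := phi_nonneg d (y - 1 / 8) hd
          have a1 := phi_mono d hd (show y - 1 / 8 ≤ y by linarith)
          have s2 := sum_w_below (1 / 8) (by norm_num) (by norm_num) k
          exact add_le_add (mul_le_mul_of_nonneg_left T1 a0)
            (mul_le_mul_of_nonneg_left s2 (by linarith))
        · refine (two 0 (by linarith)).trans (mul_le_mul_of_nonneg_left ?_ (by positivity))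
          have a0 := phi_nonneg d y hd
          rw [sub_zero, sub_self, zero_mul, add_zero]
          calc phi d y * ∑ j ∈ range k, w j * below y (q j) ≤ phi d y * 1 :=
                mul_le_mul_of_nonneg_left T1 a0
            _ ≤ (y - d) * phi d y := by
                rw [mul_comm]
                exact mul_le_mul_of_nonneg_right (by linarith) a0
      have := (ev_win_rec k d y).trans fin
      have e : 16 * d * ((y - d) * phi d y) = (y - d) * (16 * d * phi d y) := by ring
      rw [e] at this
      exact le_of_mul_le_mul_left this hyd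
  obtain ⟨m, hm⟩ := exists_nat_ge (y / (1 / ((k : ℝ) + 1)))
  apply main m
  rwa [div_le_iff₀ heta] at hm

lemma window_bound (k : ℕ) (d : ℝ) (hd : 0 < d) (hk : 1 / ((k : ℝ) + 1) ≤ d) (y : ℝ) :
    ev k (win d y) ≤ 32 * Real.exp 200 * d := by
  refine (main_bound k d hd hk y).trans ?_
  have := mul_le_mul_of_nonneg_left (phi_le d y hd) (show 0 ≤ 16 * d by positivity)
  linarith

end Pool.Agent.Lib.MP_5a22fd_pr
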