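import Mathlib
import Pool.Agent.Lib.MP_5a22fd_pr.Bound

set_option autoImplicit false

namespace Pool.Agent.Lib.MP_5a22fd_pr

open MeasureTheory ProbabilityTheory Set Filter Topology
open scoped ENNReal NNReal

variable {Ω : Type*} [MeasurableSpace Ω] (P : Measure Ω) [IsProbabilityMeasure P]
  (I : ℕ → Ω → ℝ)

/-- Partial sums of the series. -/
noncomputable def psum (k : ℕ) (ω : Ω) : ℝ := ∑ n ∈ Finset.range k, I n ω / ((n : ℝ) + 1)

lemma law_psum (hm : ∀ n, Measurable (I n)) (hind : iIndepFun I P)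
    (h01 : ∀ n ω, I n ω = 0 ∨ I n ω = 1)
    (hp : ∀ n, P.real {ω | I n ω = 1} = 1 / ((n : ℝ) + 1)) (k : ℕ) :
    ∀ B : Set ℝ, MeasurableSet B →
      P.real (psum I (k + 1) ⁻¹' B) = ev k (fun x => B.indicator 1 (1 + x)) := by
  have hmJ : ∀ n, Measurable (fun ω => I n ω / ((n : ℝ) + 1)) := fun n => (hm n).div_const _
  have hms : ∀ k, Measurable (psum I k) := fun k => Finset.measurable_sum _ (fun n _ => hmJ n)
  have hm1 : ∀ n, MeasurableSet {ω | I n ω = 1} := fun n => hm n (measurableSet_singleton 1)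
  have hp0 : ∀ n, P.real {ω | I n ω = 0} = 1 - 1 / ((n : ℝ) + 1) := by
    intro n
    have : {ω | I n ω = 0} = {ω | I n ω = 1}ᶜ := by
      ext ω
      simp only [mem_ofPred_eq, mem_compl_iff]
      rcases h01 n ω with h | h <;> simp [h]
    rw [this, probReal_compl_eq_one_sub (hm1 n), hp]
  have hJ : iIndepFun (fun n ω => I n ω / ((n : ℝ) + 1)) P :=
    hind.comp (fun (n : ℕ) (x : ℝ) => x / ((n : ℝ) + 1)) (fun n => measurable_id.div_const _)
  have hsI : ∀ k, IndepFun (psum I k) (I k) P := by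
    intro k
    have h1 := hJ.indepFun_sum_range_succ hmJ k
    have h2 := h1.comp measurable_id (measurable_id.mul_const ((k : ℝ) + 1))
    have e1 : (id ∘ ∑ j ∈ Finset.range k, fun ω => I j ω / ((j : ℝ) + 1)) = psum I k := by
      ext ω; simp [psum]
    have e2 : ((fun x : ℝ => id x * ((k : ℝ) + 1)) ∘ fun ω => I k ω / ((k : ℝ) + 1)) = I k := by
      ext ω
      have : ((k : ℝ) + 1) ≠ 0 := by positivity
      simp [this]
    rwa [e1, e2] at h2
  have step : ∀ k, ∀ B : Set ℝ, MeasurableSet B → P.real (psum I (k + 1) ⁻¹' B)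
      = (1 - 1 / ((k : ℝ) + 1)) * P.real (psum I k ⁻¹' B)
        + 1 / ((k : ℝ) + 1) * P.real (psum I k ⁻¹' ((fun x => x + 1 / ((k : ℝ) + 1)) ⁻¹' B)) := by
    intro k B hB
    have hB' : MeasurableSet ((fun x => x + 1 / ((k : ℝ) + 1)) ⁻¹' B) :=
      (measurable_id.add_const _) hB
    have e : psum I (k + 1) ⁻¹' B = (psum I k ⁻¹' B ∩ I k ⁻¹' {0})
        ∪ (psum I k ⁻¹' ((fun x => x + 1 / ((k : ℝ) + 1)) ⁻¹' B) ∩ I k ⁻¹' {1}) := by
      ext ω
      simp only [mem_preimage, mem_union, mem_inter_iff, mem_singleton_iff, psum,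
        Finset.sum_range_succ]
      rcases h01 k ω with h | h <;> simp [h]
    have hd : Disjoint (psum I k ⁻¹' B ∩ I k ⁻¹' {0})
        (psum I k ⁻¹' ((fun x => x + 1 / ((k : ℝ) + 1)) ⁻¹' B) ∩ I k ⁻¹' {1}) := by
      rw [Set.disjoint_left]
      rintro ω ⟨_, h1⟩ ⟨_, h2⟩
      simp only [mem_preimage, mem_singleton_iff] at h1 h2
      rw [h1] at h2
      norm_num at h2
    rw [e, measureReal_union hd ((hms k hB').inter (hm k (measurableSet_singleton 1)))]
    have i0 := (hsI k).measure_inter_preimage_eq_mul B {0} hB (measurableSet_singleton 0)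
    have i1 := (hsI k).measure_inter_preimage_eq_mul _ {1} hB' (measurableSet_singleton 1)
    have j0 := hp0 k
    have j1 := hp k
    simp only [Measure.real] at *
    rw [i0, i1, ENNReal.toReal_mul, ENNReal.toReal_mul]
    have k0 : I k ⁻¹' {0} = {ω | I k ω = 0} := rfl
    have k1 : I k ⁻¹' {1} = {ω | I k ω = 1} := rfl
    rw [k0, k1, j0, j1]
    ring
  induction k with
  | zero =>
    intro B hB
    rw [step 0 B hB]
    simp only [ev, Nat.cast_zero, zero_add, div_one, sub_self, zero_mul, one_mul, add_zero]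
    by_cases h : (1 : ℝ) ∈ B
    · have : psum I 0 ⁻¹' ((fun x => x + 1) ⁻¹' B) = univ := by
        ext ω; simp [psum, h]
      rw [this]; simp [h]
    · have : psum I 0 ⁻¹' ((fun x => x + 1) ⁻¹' B) = ∅ := by
        ext ω; simp [psum, h]
      rw [this]; simp [h]
  | succ k ih =>
    intro B hB
    have hB' : MeasurableSet ((fun x => x + 1 / (((k + 1 : ℕ) : ℝ) + 1)) ⁻¹' B) :=
      (measurable_id.add_const _) hB
    rw [step (k + 1) B hB, ih B hB, ih _ hB']
    have e : 1 / (((k + 1 : ℕ) : ℝ) + 1) = q k := by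
      unfold q; push_cast; ring
    simp only [ev, e]
    have e3 : (fun x => ((fun x => x + q k) ⁻¹' B).indicator (1 : ℝ → ℝ) (1 + x))
        = (fun x => B.indicator (1 : ℝ → ℝ) (1 + (x + q k))) := by
      ext x
      by_cases h : 1 + (x + q k) ∈ B
      · have h' : 1 + x ∈ (fun x => x + q k) ⁻¹' B := by
          rw [mem_preimage, add_assoc]; exact h
        rw [indicator_of_mem h, indicator_of_mem h']; rfl
      · have h' : 1 + x ∉ (fun x => x + q k) ⁻¹' B := by
          rw [mem_preimage, add_assoc]; exact h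
        rw [indicator_of_notMem h, indicator_of_notMem h']
    rw [e3]

lemma psum_Ioo (hm : ∀ n, Measurable (I n)) (hind : iIndepFun I P)
    (h01 : ∀ n ω, I n ω = 0 ∨ I n ω = 1)
    (hp : ∀ n, P.real {ω | I n ω = 1} = 1 / ((n : ℝ) + 1)) (a b : ℝ) (hab : a < b) (k : ℕ)
    (hk : 1 / ((k : ℝ) + 1) ≤ b - a) :
    P (psum I (k + 1) ⁻¹' Ioo a b) ≤ ENNReal.ofReal (32 * Real.exp 200 * (b - a)) := by
  have h1 := law_psum P I hm hind h01 hp k (Ioo a b) measurableSet_Ioo
  have h2 : (fun x => (Ioo a b).indicator (1 : ℝ → ℝ) (1 + x)) = win (b - a) (b - 1) := by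
    ext x
    unfold win
    simp only [Set.indicator, mem_Ioo, Pi.one_apply]
    congr 1
    apply propext
    constructor <;> rintro ⟨u, v⟩ <;> constructor <;> linarith
  rw [h2] at h1
  have h3 := window_bound k (b - a) (by linarith) hk (b - 1)
  rw [← h1] at h3
  rw [← ENNReal.ofReal_toReal (measure_ne_top P _)]
  exact ENNReal.ofReal_le_ofReal h3

lemma ae_summable (hm : ∀ n, Measurable (I n))
    (h01 : ∀ n ω, I n ω = 0 ∨ I n ω = 1)
    (hp : ∀ n, P.real {ω | I n ω = 1} = 1 / ((n : ℝ) + 1)) :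
    ∀ᵐ ω ∂P, Summable (fun n => I n ω / ((n : ℝ) + 1)) := by
  have hm1 : ∀ n, MeasurableSet {ω | I n ω = 1} := fun n => hm n (measurableSet_singleton 1)
  have hmeas : ∀ n, Measurable (fun ω => ENNReal.ofReal (I n ω / ((n : ℝ) + 1))) :=
    fun n => ((hm n).div_const _).ennreal_ofReal
  have hint : ∀ n, ∫⁻ ω, ENNReal.ofReal (I n ω / ((n : ℝ) + 1)) ∂P
      = ENNReal.ofReal (1 / ((n : ℝ) + 1) ^ 2) := by
    intro n
    have e : (fun ω => ENNReal.ofReal (I n ω / ((n : ℝ) + 1)))
        = {ω | I n ω = 1}.indicator (fun _ => ENNReal.ofReal (1 / ((n : ℝ) + 1))) := by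
      ext ω
      rcases h01 n ω with h | h <;> simp [Set.indicator, h]
    rw [e, lintegral_indicator_const (hm1 n), ← ENNReal.ofReal_toReal (measure_ne_top P _)]
    have := hp n
    simp only [Measure.real] at this
    rw [this, ← ENNReal.ofReal_mul (by positivity)]
    congr 1
    field_simp
  have hs : Summable (fun n : ℕ => 1 / ((n : ℝ) + 1) ^ 2) := by
    have := (summable_nat_add_iff 1).2 (Real.summable_one_div_nat_pow.2 (show 1 < 2 by norm_num))
    simpa using this
  have hfin : ∫⁻ ω, ∑' n, ENNReal.ofReal (I n ω / ((n : ℝ) + 1)) ∂P ≠ ∞ := by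
    rw [lintegral_tsum (fun n => (hmeas n).aemeasurable)]
    simp only [hint]
    rw [← ENNReal.ofReal_tsum_of_nonneg (fun n => by positivity) hs]
    exact ENNReal.ofReal_ne_top
  have := ae_lt_top (Measurable.tsum hmeas) hfin
  filter_upwards [this] with ω hω
  have h1 := ENNReal.summable_toReal hω.ne
  refine h1.congr (fun n => ?_)
  rw [ENNReal.toReal_ofReal]
  rcases h01 n ω with h | h <;> rw [h] <;> positivity

lemma tsum_Ioo (hm : ∀ n, Measurable (I n)) (hind : iIndepFun I P)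
    (h01 : ∀ n ω, I n ω = 0 ∨ I n ω = 1)
    (hp : ∀ n, P.real {ω | I n ω = 1} = 1 / ((n : ℝ) + 1)) (a b : ℝ) (hab : a < b) :
    P {ω | (∑' n, I n ω / ((n : ℝ) + 1)) ∈ Ioo a b}
      ≤ ENNReal.ofReal (32 * Real.exp 200 * (b - a)) := by
  obtain ⟨k0, hk0⟩ := exists_nat_one_div_lt (show 0 < b - a by linarith)
  let E : ℕ → Set Ω := fun N => ⋂ k ≥ N + k0, psum I (k + 1) ⁻¹' Ioo a b
  have hmono : Monotone E := by
    intro N N' h ω hω
    simp only [E, mem_iInter] at hω ⊢
    intro k hk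
    exact hω k (by omega)
  have hE : ∀ N, P (E N) ≤ ENNReal.ofReal (32 * Real.exp 200 * (b - a)) := by
    intro N
    refine le_trans (measure_mono ?_) (psum_Ioo P I hm hind h01 hp a b hab (N + k0) ?_)
    · exact biInter_subset_of_mem (show N + k0 ∈ {k | k ≥ N + k0} from le_refl (N + k0))
    · refine le_trans ?_ hk0.le
      apply one_div_le_one_div_of_le (by positivity)
      push_cast
      have : (0 : ℝ) ≤ N := Nat.cast_nonneg N
      linarith
  have hsub : {ω | (∑' n, I n ω / ((n : ℝ) + 1)) ∈ Ioo a b} ≤ᵐ[P] (⋃ N, E N : Set Ω) := by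
    filter_upwards [ae_summable P I hm h01 hp] with ω hω hmem
    have ht := hω.hasSum.tendsto_sum_nat
    have hev := ht.eventually (isOpen_Ioo.mem_nhds hmem)
    rw [eventually_atTop] at hev
    obtain ⟨N, hN⟩ := hev
    refine mem_iUnion.2 ⟨N, ?_⟩
    simp only [E, mem_iInter]
    intro k hk
    exact hN (k + 1) (by omega)
  refine (measure_mono_ae hsub).trans ?_
  rw [hmono.measure_iUnion]
  exact iSup_le hE

lemma tsum_bound (hm : ∀ n, Measurable (I n)) (hind : iIndepFun I P)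
    (h01 : ∀ n ω, I n ω = 0 ∨ I n ω = 1)
    (hp : ∀ n, P.real {ω | I n ω = 1} = 1 / ((n : ℝ) + 1)) (A : Set ℝ) :
    P {ω | (∑' n, I n ω / ((n : ℝ) + 1)) ∈ A}
      ≤ ENNReal.ofReal (64 * Real.exp 200) * volume A := by
  set c : ℝ≥0∞ := ENNReal.ofReal (64 * Real.exp 200) with hc
  let ν : OuterMeasure ℝ :=
    OuterMeasure.map (fun ω => ∑' n, I n ω / ((n : ℝ) + 1)) P.toOuterMeasure
  have hIoc : ∀ a b : ℝ, ν (Ioc a b) ≤ c * ENNReal.ofReal (b - a) := by
    intro a b
    rcases le_or_gt b a with h | h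
    · rw [Ioc_eq_empty (by linarith)]; simp
    · have h1 := tsum_Ioo P I hm hind h01 hp a (b + (b - a)) (by linarith)
      have h2 : ν (Ioc a b) ≤ P {ω | (∑' n, I n ω / ((n : ℝ) + 1)) ∈ Ioo a (b + (b - a))} := by
        apply measure_mono (μ := P)
        intro ω hω
        exact ⟨hω.1, by have := hω.2; linarith⟩
      refine h2.trans (h1.trans (le_of_eq ?_))
      rw [hc, ← ENNReal.ofReal_mul (by positivity)]
      congr 1
      ring
  have hle : ν ≤ c • StieltjesFunction.id.outer := by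
    rw [StieltjesFunction.outer, OuterMeasure.smul_ofFunction ENNReal.ofReal_ne_top,
      OuterMeasure.le_ofFunction]
    intro s
    have hc0 : c ≠ 0 := by
      rw [hc]
      exact (ENNReal.ofReal_pos.2 (by positivity)).ne'
    rw [Pi.smul_apply, smul_eq_mul, StieltjesFunction.length_eq,
      ENNReal.mul_iInf_of_ne hc0 ENNReal.ofReal_ne_top]
    refine le_iInf fun a => ?_
    rw [ENNReal.mul_iInf_of_ne hc0 ENNReal.ofReal_ne_top]
    refine le_iInf fun b => ?_
    rw [ENNReal.mul_iInf_of_ne hc0 ENNReal.ofReal_ne_top]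
    refine le_iInf fun hs => ?_
    have hs' : s ⊆ Ioc a b := fun x hx =>
      hs ⟨hx, notMem_botSet_of_lt (show x - 1 < x by linarith)⟩
    exact (ν.mono hs').trans (hIoc a b)
  have := hle A
  rw [Real.volume_val, StieltjesFunction.measure_def]
  exact this

end Pool.Agent.Lib.MP_5a22fd_pr
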